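import Mathlib
import Pool.Agent.Q8.KS.Share4

/-!
The gauge of a nef class and telescoping along the words of a semigroup.
-/

set_option autoImplicit false

open Filter Topology

namespace Pool.Agent.K6.H12.KS

open Pool.Agent.Q8.KS

section Cone

variable {E : Type} [NormedAddCommGroup E] [NormedSpace ℝ E] [FiniteDimensional ℝ E]

/-- The least `t` with `t L - D` in the cone. -/
noncomputable def gauge (C : Set E) (L D : E) : ℝ := sInf {t : ℝ | 0 ≤ t ∧ t • L - D ∈ C}

lemma gauge_bdd (C : Set E) (L D : E) : BddBelow {t : ℝ | 0 ≤ t ∧ t • L - D ∈ C} :=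
  ⟨0, fun _ h => h.1⟩

lemma gauge_nonneg (C : Set E) (L D : E) : 0 ≤ gauge C L D :=
  Real.sInf_nonneg fun _ h => h.1

lemma gauge_ne {C : Set E} (hC : IsCone C) {L : E} (hL : L ∈ interior C) (D : E) :
    {t : ℝ | 0 ≤ t ∧ t • L - D ∈ C}.Nonempty := by
  obtain ⟨M, hM, h⟩ := unit_le hC hL
  exact ⟨M * ‖D‖, by positivity, h D⟩

lemma gauge_le {C : Set E} (hC : IsCone C) {L : E} (hL : L ∈ interior C) :
    ∃ M : ℝ, 0 < M ∧ ∀ D : E, gauge C L D ≤ M * ‖D‖ := by
  obtain ⟨M, hM, h⟩ := unit_le hC hL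
  exact ⟨M, hM, fun D => csInf_le (gauge_bdd C L D) ⟨by positivity, h D⟩⟩

/-- The norm of an element of the cone is bounded by its gauge. -/
lemma norm_le_gauge {C : Set E} (hC : IsCone C) (l : E →ₗ[ℝ] ℝ) (hl : ∀ x ∈ C, x ≠ 0 → 0 < l x)
    {L : E} (hL : L ∈ interior C) : ∃ M : ℝ, 0 < M ∧ ∀ D ∈ C, ‖D‖ ≤ M * gauge C L D := by
  obtain ⟨M, hM, h⟩ := norm_le hC l hl
  have hl0 : ∀ x ∈ C, 0 ≤ l x := by
    intro x hx
    by_cases h0 : x = 0
    · rw [h0, map_zero]
    · exact (hl x hx h0).le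
  obtain ⟨Q, hQ⟩ : ∃ Q : ℝ, Q = M * (l L + 1) := ⟨_, rfl⟩
  have hQ0 : 0 < Q := by
    rw [hQ]
    have := hl0 L (interior_subset hL)
    positivity
  refine ⟨Q, hQ0, fun D hD => ?_⟩
  have h1 : ‖D‖ / Q ≤ gauge C L D := by
    refine le_csInf (gauge_ne hC hL D) ?_
    rintro t ⟨ht, htD⟩
    rw [div_le_iff₀ hQ0]
    have h2 := hl0 _ htD
    rw [map_sub, map_smul, smul_eq_mul] at h2
    have h3 := h D hD
    have h4 : l D ≤ t * (l L + 1) := by nlinarith
    calc ‖D‖ ≤ M * l D := h3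
      _ ≤ M * (t * (l L + 1)) := mul_le_mul_of_nonneg_left h4 hM.le
      _ = t * Q := by rw [hQ]; ring
  rwa [div_le_iff₀' hQ0] at h1

/-- The gauge grows under a map which reflects the cone and expands `L`. -/
lemma gauge_map {C : Set E} (hC : IsCone C) {L : E} (hL : L ∈ interior C) {M : E →ₗ[ℝ] E}
    (hM : ∀ D, M D ∈ C → D ∈ C) {q : ℝ} (hq : 0 < q) (hML : M L - q • L ∈ C) (D : E) :
    q * gauge C L D ≤ gauge C L (M D) := by
  refine le_csInf (gauge_ne hC hL _) ?_
  rintro t ⟨ht, htD⟩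
  have h1 : gauge C L D ≤ t / q := by
    refine csInf_le (gauge_bdd C L D) ⟨by positivity, hM _ ?_⟩
    have h2 := hC.add _ (hC.smul (t / q) (by positivity) _ hML) _ htD
    convert h2 using 1
    rw [map_sub, map_smul, smul_sub, smul_smul, div_mul_cancel₀ _ hq.ne']
    abel
  rwa [le_div_iff₀' hq] at h1

end Cone

section Tel

variable {ι E X : Type} [NormedAddCommGroup E] [NormedSpace ℝ E]

/-- The class of a word: the pullbacks are applied from the right to the left. -/
def wcls (M : ι → E →ₗ[ℝ] E) : List ι → E → E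
  | [], D => D
  | i :: w, D => M i (wcls M w D)

/-- The point of a word: the maps are applied from the left to the right. -/
def wpt (f : ι → X → X) : List ι → X → X
  | [], x => x
  | i :: w, x => wpt f w (f i x)

/-- **Telescoping.** -/
theorem telescope (C : Set E) (M : ι → E →ₗ[ℝ] E) (hMC : ∀ i, ∀ D ∈ C, M i D ∈ C)
    (f : ι → X → X) (η : E →ₗ[ℝ] (X → ℝ)) (g : E → ℝ) (r : X → ℝ) {K p q : ℝ} (hK : 0 < K)
    (hp : 0 ≤ p) (hpq : p < q) (hr : ∀ x, 0 ≤ r x) (hg0 : ∀ D ∈ C, 0 ≤ g D)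
    (hg : ∀ i, ∀ D ∈ C, q * g D ≤ g (M i D)) (hrf : ∀ i x, r (f i x) ≤ p * r x)
    (h : ∀ i, ∀ D ∈ C, ∀ x, |η D (f i x) - η (M i D) x| ≤ K * g D * r x) (w : List ι) :
    ∀ D ∈ C, ∀ x, |η D (wpt f w x) - η (wcls M w D) x| ≤
      K / (q - p) * g (wcls M w D) * r x := by
  have hqp : 0 < q - p := by linarith
  induction w with
  | nil =>
    intro D hD x
    simp only [wpt, wcls, sub_self, abs_zero]
    have := hg0 D hD
    have := hr x
    positivity
  | cons i w ih =>
    intro D hD x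
    have hwC : wcls M w D ∈ C := by
      clear ih
      induction w with
      | nil => exact hD
      | cons j w ih2 => exact hMC j _ ih2
    have h1 := ih D hD (f i x)
    have h2 := h i _ hwC x
    have h3 := hg i _ hwC
    have h4 := hg0 _ hwC
    have h5 := hr x
    have h6 := hrf i x
    obtain ⟨a, ha⟩ : ∃ a, a = g (wcls M w D) := ⟨_, rfl⟩
    obtain ⟨b, hb⟩ : ∃ b, b = g (M i (wcls M w D)) := ⟨_, rfl⟩
    rw [← ha] at h1 h2 h3 h4
    rw [← hb] at h3
    show |η D (wpt f w (f i x)) - η (M i (wcls M w D)) x| ≤ K / (q - p) * g (M i (wcls M w D)) * r x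
    rw [← hb]
    have h7 : |η D (wpt f w (f i x)) - η (M i (wcls M w D)) x| ≤
        K / (q - p) * a * r (f i x) + K * a * r x := by
      refine (abs_sub_le _ (η (wcls M w D) (f i x)) _).trans (add_le_add h1 h2)
    refine h7.trans ?_
    have h8 : K / (q - p) * a * r (f i x) ≤ K / (q - p) * a * (p * r x) :=
      mul_le_mul_of_nonneg_left h6 (by positivity)
    have h9 : K / (q - p) * a * (p * r x) + K * a * r x = K / (q - p) * (q * a) * r x := by
      field_simp
      ring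
    have h10 : K / (q - p) * (q * a) * r x ≤ K / (q - p) * b * r x :=
      mul_le_mul_of_nonneg_right (mul_le_mul_of_nonneg_left h3 (by positivity)) h5
    linarith

end Tel

end Pool.Agent.K6.H12.KS
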