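import Mathlib
import Pool.Agent.K6.H12.KS.Gauge

/-!
Words in a family of surjective endomorphisms.
-/

set_option autoImplicit false

open Filter Topology

namespace Pool.Agent.K6.H12.KS

open Pool.Agent.Q8.KS

variable {G : Type} [Group G]

/-- A surjective endomorphism of `V`. By the projection formula a class `D` is nef if its pullback
is nef. -/
structure Endo (V : Variety G) extends Morphism V V where
  surj : Function.Surjective pt
  reflect : ∀ D : V.NS, ns D ∈ V.Nef → D ∈ V.Nef

/-- The identity. -/
def Endo.id (V : Variety G) : Endo V where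
  toMorphism := Morphism.id V
  surj := fun x => ⟨x, rfl⟩
  reflect := fun _ h => h

/-- The composition: first `f`, then `g`. -/
def Endo.andThen {V : Variety G} (f g : Endo V) : Endo V where
  pt := fun x => g.pt (f.pt x)
  pt_smul := fun a x => by rw [f.pt_smul, g.pt_smul]
  pic := f.pic ∘ₗ g.pic
  ns := f.ns ∘ₗ g.ns
  cls_pic := fun D => by rw [LinearMap.comp_apply, f.cls_pic, g.cls_pic, LinearMap.comp_apply]
  nef := fun D h => f.nef _ (g.nef D h)
  height_pic := fun D u h => f.height_pic _ _ (g.height_pic D u h)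
  injective := fun _ => by
    rw [LinearMap.coe_comp]
    exact (f.injective f.surj).comp (g.injective g.surj)
  surj := g.surj.comp f.surj
  reflect := fun D h => g.reflect D (f.reflect _ h)

/-- The composition of the maps `f i`, `i` in the list `w`, the first letter is applied first. -/
def word {V : Variety G} {ι : Type} (f : ι → Endo V) : List ι → Endo V
  | [] => Endo.id V
  | i :: w => (f i).andThen (word f w)

variable {V : Variety G} {ι : Type} (f : ι → Endo V)

lemma word_pt (w : List ι) (x : V.Pt) : (word f w).pt x = wpt (fun i => (f i).pt) w x := by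
  induction w generalizing x with
  | nil => rfl
  | cons i w ih => exact ih ((f i).pt x)

lemma word_ns (w : List ι) (D : V.NS) : (word f w).ns D = wcls (fun i => (f i).ns) w D := by
  induction w with
  | nil => rfl
  | cons i w ih =>
    show (f i).ns ((word f w).ns D) = (f i).ns (wcls (fun i => (f i).ns) w D)
    rw [ih]

lemma word_append_pt (w w' : List ι) (x : V.Pt) :
    (word f (w ++ w')).pt x = (word f w').pt ((word f w).pt x) := by
  induction w generalizing x with
  | nil => rfl
  | cons i w ih => exact ih ((f i).pt x)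

lemma word_append_ns (w w' : List ι) (D : V.NS) :
    (word f (w ++ w')).ns D = (word f w).ns ((word f w').ns D) := by
  induction w with
  | nil => rfl
  | cons i w ih =>
    show (f i).ns ((word f (w ++ w')).ns D) = (f i).ns ((word f w).ns ((word f w').ns D))
    rw [ih]

/-- The word `w` repeated `k` times. -/
def rep {ι : Type} (w : List ι) : ℕ → List ι
  | 0 => []
  | k + 1 => w ++ rep w k

lemma rep_pt (w : List ι) (k : ℕ) (x : V.Pt) : (word f (rep w k)).pt x = (word f w).pt^[k] x := by
  induction k generalizing x with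
  | zero => rfl
  | succ k ih =>
    show (word f (w ++ rep w k)).pt x = _
    rw [word_append_pt, ih, Function.iterate_succ_apply]

lemma rep_ns (w : List ι) (k : ℕ) (D : V.NS) :
    (word f (rep w k)).ns D = ((word f w).ns ^ k) D := by
  induction k with
  | zero => rfl
  | succ k ih =>
    show (word f (w ++ rep w k)).ns D = _
    rw [word_append_ns, ih, pow_succ', Module.End.mul_apply]

/-- The family is jointly int-amplified: for one ample class `L` all the classes `(f i)^* L - L`
are ample. -/
def Amplified : Prop := ∃ L ∈ interior V.Nef, ∀ i, (f i).ns L - L ∈ interior V.Nef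

/-- The family is pinched: for one ample class `L` and real numbers `q > 1` and `Q < q ^ 2` all the
classes `(f i)^* L - q L` and `Q L - (f i)^* L` are nef. -/
def Pinched : Prop := ∃ L ∈ interior V.Nef, ∃ q Q : ℝ, 1 < q ∧ Q < q ^ 2 ∧
  ∀ i, (f i).ns L - q • L ∈ V.Nef ∧ Q • L - (f i).ns L ∈ V.Nef

lemma Amplified.exists_q [Finite ι] (h : Amplified f) :
    ∃ L ∈ interior V.Nef, ∃ q : ℝ, 1 < q ∧ ∀ i, (f i).ns L - q • L ∈ V.Nef := by
  obtain ⟨L, hL, hi⟩ := h
  refine ⟨L, hL, ?_⟩
  have h1 : ∀ i, ∀ᶠ ε : ℝ in 𝓝[>] 0, (f i).ns L - (1 + ε) • L ∈ V.Nef := by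
    intro i
    have h2 : Tendsto (fun ε : ℝ => (f i).ns L - (1 + ε) • L) (𝓝 0) (𝓝 ((f i).ns L - L)) := by
      have : Continuous fun ε : ℝ => (f i).ns L - (1 + ε) • L := by fun_prop
      have h3 := this.tendsto 0
      rwa [add_zero, one_smul] at h3
    have h4 := h2.eventually (isOpen_interior.mem_nhds (hi i))
    exact (h4.filter_mono nhdsWithin_le_nhds).mono fun ε hε => interior_subset hε
  have h5 := (eventually_all.2 h1).and (self_mem_nhdsWithin : Set.Ioi (0 : ℝ) ∈ 𝓝[>] (0 : ℝ))
  obtain ⟨ε, h6, h7⟩ := h5.exists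
  have h8 : (0 : ℝ) < ε := h7
  exact ⟨1 + ε, by linarith, h6⟩

/-- Two ample heights are comparable. -/
lemma compare (V : Variety G) {A B : V.Pic} (hA : V.IsAmple A) (hB : V.IsAmple B)
    {u v : V.Pt → ℝ} (hu : V.IsHeight A u) (hv : V.IsHeight B v) :
    ∃ C : ℝ, 1 ≤ C ∧ ∀ x, max 1 (u x) ≤ C * max 1 (v x) ∧ max 1 (v x) ≤ C * max 1 (u x) := by
  obtain ⟨a, ha⟩ := height_bound V hA hu hv
  obtain ⟨b, hb⟩ := height_bound V hB hv hu
  have h0 : ∀ (C : ℝ) (s t : ℝ), 1 ≤ C → |C| ≥ 0 → t ≤ C * max 1 s → max 1 t ≤ C * max 1 s := by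
    intro C s t hC _ h
    refine max_le ?_ h
    have := le_max_left 1 s
    nlinarith
  refine ⟨|a| + |b| + 1, by linarith [abs_nonneg a, abs_nonneg b], fun x => ⟨?_, ?_⟩⟩
  · refine h0 _ _ _ (by linarith [abs_nonneg a, abs_nonneg b]) (abs_nonneg _) ?_
    refine (le_abs_self _).trans ((hb x).trans (mul_le_mul_of_nonneg_right ?_ (by positivity)))
    linarith [le_abs_self b, abs_nonneg a]
  · refine h0 _ _ _ (by linarith [abs_nonneg a, abs_nonneg b]) (abs_nonneg _) ?_
    refine (le_abs_self _).trans ((ha x).trans (mul_le_mul_of_nonneg_right ?_ (by positivity)))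
    linarith [le_abs_self a, abs_nonneg b]

/-- The degree with respect to an ample class is positive on nef classes. -/
lemma deg_pos' (V : Variety G) {A : V.Pic} (hA : V.IsAmple A) :
    ∀ D ∈ V.Nef, D ≠ 0 → 0 < V.deg (V.cls A) D := fun D hD h0 => V.int_pos _ hA D hD h0

end Pool.Agent.K6.H12.KS
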