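import Mathlib
import Pool.Agent.K6.H12.KS.Word

/-!
Commuting int-amplified endomorphisms are jointly int-amplified.
-/

set_option autoImplicit false

open Filter Topology

namespace Pool.Agent.K6.H12.KS

open Pool.Agent.Q8.KS

section

variable {E : Type} [NormedAddCommGroup E] [NormedSpace ℝ E] [FiniteDimensional ℝ E]

lemma cone_sum {C : Set E} (hC : IsCone C) {κ : Type} (s : Finset κ) (v : κ → E)
    (h : ∀ k ∈ s, v k ∈ C) : ∑ k ∈ s, v k ∈ C := by
  classical
  induction s using Finset.induction_on with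
  | empty => rw [Finset.sum_empty]; exact hC.zero
  | insert a s ha ih =>
    rw [Finset.sum_insert ha]
    exact hC.add _ (h a (Finset.mem_insert_self a s)) _
      (ih fun k hk => h k (Finset.mem_insert_of_mem hk))

/-- One more map. -/
lemma comm_step {C : Set E} (hC : IsCone C) {κ : Type} (s : Set κ) (M : κ → E →ₗ[ℝ] E)
    (T : E →ₗ[ℝ] E) (hT : ∀ x ∈ C, T x ∈ C) (hcomm : ∀ i ∈ s, ∀ x, M i (T x) = T (M i x))
    {L' L : E} (hL' : L' ∈ interior C) (hM : ∀ i ∈ s, M i L' - L' ∈ interior C)
    (hL : L ∈ interior C) {q : ℝ} (hq : 1 < q) (hTL : T L - q • L ∈ C) :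
    ∃ L₁ ∈ interior C, T L₁ - L₁ ∈ interior C ∧ ∀ i ∈ s, M i L₁ - L₁ ∈ interior C := by
  obtain ⟨a, ha, hab⟩ := unit_le hC hL'
  obtain ⟨b, hb, hbb⟩ := unit_le hC hL
  -- `T ^ n L ≥ q ^ n L`
  have h1 : ∀ n : ℕ, (T ^ n) L - q ^ n • L ∈ C := by
    intro n
    induction n with
    | zero => simpa using hC.zero
    | succ n ih =>
      have h2 := hC.add _ (hT _ ih) _ (hC.smul (q ^ n) (by positivity) _ hTL)
      convert h2 using 1
      rw [pow_succ', Module.End.mul_apply, map_sub, map_smul, smul_sub, smul_smul, pow_succ]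
      abel
  obtain ⟨n, hn⟩ := pow_unbounded_of_one_lt (2 * (a * ‖L‖) * (b * ‖L'‖)) hq
  -- `T ^ n L' ≥ 2 L'`
  have hX : (T ^ n) L' - L' ∈ interior C := by
    rcases eq_or_ne L 0 with h0 | h0
    · -- the cone is the whole space
      have h2 : ∀ x : E, x ∈ C := by
        intro x
        have := hbb (-x)
        rwa [h0, smul_zero, zero_sub, neg_neg] at this
      have h3 : C = Set.univ := Set.eq_univ_of_forall h2
      rw [h3, interior_univ]
      trivial
    · have hnL : 0 < ‖L‖ := norm_pos_iff.2 h0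
      have haL : 0 < a * ‖L‖ := by positivity
      -- `(a ‖L‖) L' - L ∈ C`, hence `T ^ n L' ≥ (a ‖L‖)⁻¹ T ^ n L ≥ (a ‖L‖)⁻¹ q ^ n L`
      have h2 := pow_mem hT n (hab L)
      have h3 := h1 n
      have h4 := hbb L'
      have h5 : (T ^ n) L' - (2 : ℝ) • L' ∈ C := by
        have e1 := hC.smul (a * ‖L‖)⁻¹ (by positivity) _ (hC.add _ h2 _ h3)
        have e2 := hC.smul ((a * ‖L‖)⁻¹ * (q ^ n - 2 * (a * ‖L‖) * (b * ‖L'‖)))
          (mul_nonneg (by positivity) (by linarith)) _ (interior_subset hL)
        have e3 := hC.smul 2 (by norm_num) _ h4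
        convert hC.add _ (hC.add _ e1 _ e2) _ e3 using 1
        rw [map_sub, map_smul]
        simp only [smul_add, smul_sub, smul_smul]
        rw [inv_mul_cancel₀ haL.ne', one_smul]
        have e4 : (a * ‖L‖)⁻¹ * (q ^ n - 2 * (a * ‖L‖) * (b * ‖L'‖)) =
            (a * ‖L‖)⁻¹ * q ^ n - 2 * (b * ‖L'‖) := by
          rw [mul_sub]
          congr 1
          field_simp
        rw [e4, sub_smul]
        abel
      have h6 : (T ^ n) L' - L' = L' + ((T ^ n) L' - (2 : ℝ) • L') := by
        rw [two_smul]
        abel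
      rw [h6]
      exact ample_add hC hL' h5
  have hn0 : 0 < n ∨ n = 0 := by omega
  rcases hn0 with hn0 | rfl
  · refine ⟨∑ j ∈ Finset.range n, (T ^ j) L', ?_, ?_, fun i hi => ?_⟩
    · obtain ⟨m, rfl⟩ : ∃ m, n = m + 1 := ⟨n - 1, by omega⟩
      rw [Finset.sum_range_succ', pow_zero, Module.End.one_apply, add_comm]
      exact ample_add hC hL' (cone_sum hC _ _ fun k _ => pow_mem hT _ (interior_subset hL'))
    · have e1 : T (∑ j ∈ Finset.range n, (T ^ j) L') - ∑ j ∈ Finset.range n, (T ^ j) L' =
          (T ^ n) L' - L' := by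
        rw [map_sum, ← Finset.sum_sub_distrib]
        have e2 := Finset.sum_range_sub (fun j => (T ^ j) L') n
        rw [pow_zero, Module.End.one_apply] at e2
        rw [← e2]
        refine Finset.sum_congr rfl fun j _ => ?_
        rw [pow_succ', Module.End.mul_apply]
      rw [e1]
      exact hX
    · have hpow : ∀ (j : ℕ) (x : E), M i ((T ^ j) x) = (T ^ j) (M i x) := by
        intro j
        induction j with
        | zero => exact fun _ => rfl
        | succ j ih =>
          intro x
          rw [pow_succ', Module.End.mul_apply, hcomm i hi, ih, Module.End.mul_apply]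
      have e1 : M i (∑ j ∈ Finset.range n, (T ^ j) L') - ∑ j ∈ Finset.range n, (T ^ j) L' =
          ∑ j ∈ Finset.range n, (T ^ j) (M i L' - L') := by
        rw [map_sum, ← Finset.sum_sub_distrib]
        refine Finset.sum_congr rfl fun j _ => ?_
        rw [hpow, map_sub]
      rw [e1]
      obtain ⟨m, rfl⟩ : ∃ m, n = m + 1 := ⟨n - 1, by omega⟩
      rw [Finset.sum_range_succ', pow_zero, Module.End.one_apply, add_comm]
      exact ample_add hC (hM i hi) (cone_sum hC _ _ fun k _ =>
        pow_mem hT _ (interior_subset (hM i hi)))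
  · -- `0` is in the interior
    rw [pow_zero, Module.End.one_apply, sub_self] at hX
    have h2 : ∀ x : E, x ∈ C := by
      obtain ⟨c, _, hc⟩ := unit_le hC hX
      intro x
      have := hc (-x)
      rwa [smul_zero, zero_sub, neg_neg] at this
    have h3 : C = Set.univ := Set.eq_univ_of_forall h2
    rw [h3, interior_univ]
    exact ⟨L', trivial, trivial, fun _ _ => trivial⟩

end

variable {G : Type} [Group G] {V : Variety G}

/-- The endomorphism is int-amplified: `g^* L - L` is ample for some ample class `L`. -/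
def IntAmplified (g : Endo V) : Prop := ∃ L ∈ interior V.Nef, g.ns L - L ∈ interior V.Nef

/-- Commuting int-amplified endomorphisms are jointly int-amplified. -/
theorem amplified_of_comm {ι : Type} [Finite ι] (f : ι → Endo V)
    (hne : (interior V.Nef).Nonempty) (hf : ∀ i, IntAmplified (f i))
    (hc : ∀ i j D, (f i).ns ((f j).ns D) = (f j).ns ((f i).ns D)) : Amplified f := by
  classical
  have := Fintype.ofFinite ι
  have key : ∀ s : Finset ι, ∃ L ∈ interior V.Nef, ∀ i ∈ s, (f i).ns L - L ∈ interior V.Nef := by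
    intro s
    induction s using Finset.induction_on with
    | empty =>
      obtain ⟨L, hL⟩ := hne
      exact ⟨L, hL, fun i hi => absurd hi (Finset.notMem_empty i)⟩
    | insert a s ha ih =>
      obtain ⟨L', hL', hs⟩ := ih
      have h1 : Amplified (fun _ : Unit => f a) := by
        obtain ⟨L, hL, h⟩ := hf a
        exact ⟨L, hL, fun _ => h⟩
      obtain ⟨L, hL, q, hq, hi⟩ := h1.exists_q
      obtain ⟨L₁, hL₁, h2, h3⟩ := comm_step V.nef_cone (s : Set ι) (fun i => (f i).ns) (f a).ns
        (f a).nef (fun i _ x => hc i a x) hL' (fun i hi => hs i hi) hL hq (hi ())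
      refine ⟨L₁, hL₁, fun i hi => ?_⟩
      rcases Finset.mem_insert.1 hi with rfl | hi
      · exact h2
      · exact h3 i hi
  obtain ⟨L, hL, h⟩ := key Finset.univ
  exact ⟨L, hL, fun i => h i (Finset.mem_univ i)⟩

end Pool.Agent.K6.H12.KS
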