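import Mathlib
import Pool.Agent.K6.H12.KS.Word

/-!
The heights of the points of a semigroup orbit.
-/

set_option autoImplicit false

open Filter Topology

namespace Pool.Agent.K6.H12.KS

open Pool.Agent.Q8.KS

variable {G : Type} [Group G]

/-- The error term of a linear choice of heights if there are no numerically trivial classes. -/
lemma lift_pull_inj (V : Variety G) (hV : Function.Injective V.cls) (s : V.NS →ₗ[ℝ] V.Pic)
    (η : V.NS →ₗ[ℝ] (V.Pt → ℝ)) (hs : ∀ D, V.cls (s D) = D) (hη : ∀ D, V.IsHeight (s D) (η D))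
    (f : Morphism V V) :
    ∃ K : ℝ, 0 < K ∧ ∀ (D : V.NS) (x : V.Pt), |η D (f.pt x) - η (f.ns D) x| ≤ K * ‖D‖ := by
  obtain ⟨K, hK, h⟩ := lin_err ((LinearMap.funLeft ℝ ℝ f.pt) ∘ₗ η - η ∘ₗ f.ns) (fun _ => 1)
    (fun _ => zero_le_one) (fun D => by
      have h1 : f.pic (s D) = s (f.ns D) := by
        apply hV
        rw [f.cls_pic, hs, hs]
      have h2 := f.height_pic _ _ (hη D)
      rw [h1] at h2
      obtain ⟨c, hc⟩ := height_diff V h2 (hη (f.ns D))
      refine ⟨c, fun x => ?_⟩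
      rw [mul_one]
      exact hc x)
  refine ⟨K, hK, fun D x => ?_⟩
  have := h D x
  rwa [mul_one] at this

/-- A constant for a finite family. -/
lemma unif_const {ι : Type} [Finite ι] {P : ι → ℝ → Prop}
    (hmono : ∀ i a b, a ≤ b → P i a → P i b) (h : ∀ i, ∃ K : ℝ, P i K) :
    ∃ K : ℝ, 1 ≤ K ∧ ∀ i, P i K := by
  classical
  have := Fintype.ofFinite ι
  choose K hK using h
  have h0 : 0 ≤ ∑ i, |K i| := Finset.sum_nonneg fun i _ => abs_nonneg (K i)
  refine ⟨1 + ∑ i, |K i|, by linarith, fun i => hmono i _ _ ?_ (hK i)⟩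
  have h1 : |K i| ≤ ∑ i, |K i| := Finset.single_le_sum (f := fun i => |K i|)
    (fun i _ => abs_nonneg (K i)) (Finset.mem_univ i)
  have h2 := le_abs_self (K i)
  linarith

/-- The heights of the points of a semigroup orbit: the error term. -/
structure Err {V : Variety G} {ι : Type} (f : ι → Endo V) (η : V.NS →ₗ[ℝ] (V.Pt → ℝ))
    (u : V.Pt → ℝ) (L : V.NS) (q B : ℝ) : Prop where
  ample : L ∈ interior V.Nef
  one_lt : 1 < q
  pos : 0 < B
  expand : ∀ i D, q * gauge V.Nef L D ≤ gauge V.Nef L ((f i).ns D)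
  err : ∀ w, ∀ D ∈ V.Nef, ∀ x, |η D ((word f w).pt x) - η ((word f w).ns D) x| ≤
    B * gauge V.Nef L ((word f w).ns D) * √(max 1 (u x))

theorem err_inj {V : Variety G} {ι : Type} [Finite ι] (f : ι → Endo V)
    (hV : Function.Injective V.cls) (hf : Amplified f) (s : V.NS →ₗ[ℝ] V.Pic)
    (η : V.NS →ₗ[ℝ] (V.Pt → ℝ)) (hs : ∀ D, V.cls (s D) = D) (hη : ∀ D, V.IsHeight (s D) (η D))
    {A : V.Pic} (hA : V.IsAmple A) (u : V.Pt → ℝ) :
    ∃ L q B, Err f η u L q B := by
  obtain ⟨L, hL, q, hq, hi⟩ := hf.exists_q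
  obtain ⟨M, hM, hMb⟩ := norm_le_gauge V.nef_cone (V.deg (V.cls A)) (deg_pos' V hA) hL
  obtain ⟨K, hK, hKb⟩ := unif_const (ι := ι)
    (P := fun i K => ∀ (D : V.NS) (x : V.Pt), |η D ((f i).pt x) - η ((f i).ns D) x| ≤ K * ‖D‖)
    (fun i a b hab h D x => (h D x).trans (mul_le_mul_of_nonneg_right hab (norm_nonneg D)))
    (fun i => by
      obtain ⟨K, _, h⟩ := lift_pull_inj V hV s η hs hη (f i).toMorphism
      exact ⟨K, h⟩)
  have hexp : ∀ i D, q * gauge V.Nef L D ≤ gauge V.Nef L ((f i).ns D) := fun i D =>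
    gauge_map V.nef_cone hL (f i).reflect (by linarith) (hi i) D
  have hK0 : 0 < K := by linarith
  refine ⟨L, q, K * M / (q - 1), hL, hq, by
    have : 0 < q - 1 := by linarith
    positivity, hexp, fun w D hD x => ?_⟩
  have h1 := telescope V.Nef (fun i => (f i).ns) (fun i D hD => (f i).nef D hD)
    (fun i => (f i).pt) η (gauge V.Nef L) (fun _ => 1) (K := K * M) (p := 1) (q := q)
    (by positivity) zero_le_one hq (fun _ => zero_le_one) (fun D _ => gauge_nonneg _ _ _)
    (fun i D _ => hexp i D) (fun _ _ => by rw [mul_one]) (fun i D hD x => by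
      refine (hKb i D x).trans ?_
      rw [mul_one, mul_assoc]
      exact mul_le_mul_of_nonneg_left (hMb D hD) hK0.le) w D hD x
  rw [← word_pt, ← word_ns, mul_one] at h1
  refine h1.trans ?_
  have h2 : (1 : ℝ) ≤ √(max 1 (u x)) := by
    rw [Real.one_le_sqrt]
    exact le_max_left _ _
  have h3 : 0 < q - 1 := by linarith
  have h4 := gauge_nonneg V.Nef L ((word f w).ns D)
  exact le_mul_of_one_le_right (by positivity) h2

lemma sqrt_step {a b p c : ℝ} (hb : 1 ≤ b) (hp : 1 ≤ p) (hc : 0 ≤ c)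
    (h : a ≤ p ^ 2 * b + c * √b) : √a ≤ p * √b + c / 2 := by
  have hb0 : 0 ≤ b := by linarith
  have h1 := Real.sqrt_nonneg b
  have h2 := Real.sq_sqrt hb0
  refine Real.sqrt_le_iff.2 ⟨by positivity, h.trans ?_⟩
  have h3 : (p * √b + c / 2) ^ 2 = p ^ 2 * √b ^ 2 + p * (c * √b) + c ^ 2 / 4 := by ring
  rw [h3, h2]
  have h4 : c * √b ≤ p * (c * √b) := le_mul_of_one_le_left (by positivity) hp
  nlinarith [sq_nonneg c]

theorem err_pinched {V : Variety G} {ι : Type} [Finite ι] (f : ι → Endo V)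
    (hf : Pinched f) (s : V.NS →ₗ[ℝ] V.Pic)
    (η : V.NS →ₗ[ℝ] (V.Pt → ℝ)) (hs : ∀ D, V.cls (s D) = D) (hη : ∀ D, V.IsHeight (s D) (η D))
    {A : V.Pic} (hA : V.IsAmple A) {u : V.Pt → ℝ} (hu : V.IsHeight A u) :
    ∃ L q B, Err f η u L q B := by
  obtain ⟨L, hL, q, Q, hq, hQ, hi⟩ := hf
  obtain ⟨M, hM, hMb⟩ := norm_le_gauge V.nef_cone (V.deg (V.cls A)) (deg_pos' V hA) hL
  have hexp : ∀ i D, q * gauge V.Nef L D ≤ gauge V.Nef L ((f i).ns D) := fun i D =>
    gauge_map V.nef_cone hL (f i).reflect (by linarith) (hi i).1 D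
  have hL' : V.IsAmple (s L) := by
    unfold Variety.IsAmple
    rw [hs]
    exact hL
  obtain ⟨C, hC, hcmp⟩ := compare V hA hL' hu (hη L)
  -- the exponent `p`
  obtain ⟨p, hp1, hpq⟩ : ∃ p, max 1 (√Q) < p ∧ p < q := by
    refine exists_between (max_lt hq ?_)
    rw [Real.sqrt_lt' (by linarith)]
    exact hQ
  have hp : 1 < p := lt_of_le_of_lt (le_max_left _ _) hp1
  have hpQ : Q < p ^ 2 := by
    have h1 : √Q < p := lt_of_le_of_lt (le_max_right _ _) hp1
    exact (Real.sqrt_lt' (by linarith)).1 h1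
  obtain ⟨K, hK, hKb⟩ := unif_const (ι := ι)
    (P := fun i K => ∀ (D : V.NS) (x : V.Pt), |η D ((f i).pt x) - η ((f i).ns D) x| ≤
      K * ‖D‖ * √(max 1 (η L x)))
    (fun i a b hab h D x => (h D x).trans (mul_le_mul_of_nonneg_right
      (mul_le_mul_of_nonneg_right hab (norm_nonneg D)) (Real.sqrt_nonneg _)))
    (fun i => by
      obtain ⟨K, _, h⟩ := lift_pull V s η hs hη (f i).toMorphism hL' (hη L)
      exact ⟨K, h⟩)
  have hK0 : 0 < K := by linarith
  -- the upper bound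
  obtain ⟨c, hc, hcb⟩ := unif_const (ι := ι)
    (P := fun i c => ∀ x : V.Pt, η ((f i).ns L) x ≤ p ^ 2 * η L x + c)
    (fun i a b hab h x => (h x).trans (by linarith))
    (fun i => by
      have h1 : V.cls (s (p ^ 2 • L - (f i).ns L)) ∈ interior V.Nef := by
        rw [hs]
        have h2 : p ^ 2 • L - (f i).ns L = (p ^ 2 - Q) • L + (Q • L - (f i).ns L) := by
          rw [sub_smul]
          abel
        rw [h2]
        exact ample_add V.nef_cone (ample_smul V.nef_cone hL (by linarith)) (hi i).2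
      obtain ⟨c, hc⟩ := V.ample_height _ h1 _ (hη _)
      refine ⟨-c, fun x => ?_⟩
      have h2 := hc x
      rw [map_sub, map_smul] at h2
      simp only [Pi.sub_apply, Pi.smul_apply, smul_eq_mul] at h2
      linarith)
  obtain ⟨c', hc'⟩ : ∃ c', c' = c + K * ‖L‖ := ⟨_, rfl⟩
  have hc'1 : 1 ≤ c' := by
    rw [hc']
    have : 0 ≤ K * ‖L‖ := by positivity
    linarith
  have hstep : ∀ i x, √(max 1 (η L ((f i).pt x))) ≤ p * √(max 1 (η L x)) + c' / 2 := by
    intro i x
    have h1 : (1 : ℝ) ≤ max 1 (η L x) := le_max_left _ _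
    have h2 : (1 : ℝ) ≤ √(max 1 (η L x)) := Real.one_le_sqrt.2 h1
    refine sqrt_step h1 hp.le (by linarith) (max_le ?_ ?_)
    · nlinarith [sq_nonneg p]
    · have h3 := (abs_le.1 (hKb i L x)).2
      have h4 := hcb i x
      have h5 : p ^ 2 * η L x ≤ p ^ 2 * max 1 (η L x) :=
        mul_le_mul_of_nonneg_left (le_max_right _ _) (sq_nonneg p)
      have h6 : c ≤ c * √(max 1 (η L x)) := le_mul_of_one_le_right (by linarith) h2
      rw [hc', add_mul]
      linarith
  obtain ⟨c₄, hc₄⟩ : ∃ c₄, c₄ = c' / 2 / (p - 1) := ⟨_, rfl⟩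
  have hp0 : 0 < p - 1 := by linarith
  have hc₄0 : 0 < c₄ := by rw [hc₄]; positivity
  have hc₄1 : c' / 2 + c₄ = p * c₄ := by
    rw [hc₄]
    field_simp
    ring
  have hqp : 0 < q - p := by linarith
  refine ⟨L, q, K * M / (q - p) * ((1 + c₄) * C), hL, hq, by positivity, hexp,
    fun w D hD x => ?_⟩
  have h1 := telescope V.Nef (fun i => (f i).ns) (fun i D hD => (f i).nef D hD)
    (fun i => (f i).pt) η (gauge V.Nef L) (fun x => √(max 1 (η L x)) + c₄) (K := K * M) (p := p)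
    (q := q) (by positivity) (by linarith) hpq (fun x => by positivity)
    (fun D _ => gauge_nonneg _ _ _) (fun i D _ => hexp i D) (fun i x => by
      have := hstep i x
      rw [mul_add, ← hc₄1]
      linarith) (fun i D hD x => by
      refine (hKb i D x).trans ?_
      have h2 : K * ‖D‖ ≤ K * M * gauge V.Nef L D := by
        rw [mul_assoc]
        exact mul_le_mul_of_nonneg_left (hMb D hD) hK0.le
      have h3 := gauge_nonneg V.Nef L D
      exact mul_le_mul h2 (by linarith) (Real.sqrt_nonneg _) (by positivity)) w D hD x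
  rw [← word_pt, ← word_ns] at h1
  refine h1.trans ?_
  have h2 : √(max 1 (η L x)) ≤ C * √(max 1 (u x)) := by
    have h3 : √(max 1 (η L x)) ≤ √(C * max 1 (u x)) := Real.sqrt_le_sqrt (hcmp x).2
    rw [Real.sqrt_mul (by linarith)] at h3
    refine h3.trans (mul_le_mul_of_nonneg_right ?_ (Real.sqrt_nonneg _))
    rw [Real.sqrt_le_left (by linarith)]
    nlinarith
  have h5 : (1 : ℝ) ≤ √(max 1 (η L x)) := Real.one_le_sqrt.2 (le_max_left _ _)
  have h6 : √(max 1 (η L x)) + c₄ ≤ (1 + c₄) * C * √(max 1 (u x)) := by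
    calc √(max 1 (η L x)) + c₄ ≤ (1 + c₄) * √(max 1 (η L x)) := by nlinarith
      _ ≤ (1 + c₄) * (C * √(max 1 (u x))) := mul_le_mul_of_nonneg_left h2 (by linarith)
      _ = _ := by ring
  have h4 := gauge_nonneg V.Nef L ((word f w).ns D)
  calc K * M / (q - p) * gauge V.Nef L ((word f w).ns D) * (√(max 1 (η L x)) + c₄)
      ≤ K * M / (q - p) * gauge V.Nef L ((word f w).ns D) * ((1 + c₄) * C * √(max 1 (u x))) :=
        mul_le_mul_of_nonneg_left h6 (by positivity)
    _ = _ := by ring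

end Pool.Agent.K6.H12.KS
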