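import Mathlib
import Pool.Agent.K6.H12.KS.Est

/-!
All compositions at once.
-/

set_option autoImplicit false

open Filter Topology

namespace Pool.Agent.K6.H12.KS

open Pool.Agent.Q8.KS

variable {G : Type} [Group G]

lemma lin_bound {E : Type} [NormedAddCommGroup E] [NormedSpace ℝ E] [FiniteDimensional ℝ E]
    (l : E →ₗ[ℝ] ℝ) : ∃ R : ℝ, 0 < R ∧ ∀ x, l x ≤ R * ‖x‖ := by
  refine ⟨‖LinearMap.toContinuousLinearMap l‖ + 1, by positivity, fun x => ?_⟩
  have h1 := (LinearMap.toContinuousLinearMap l).le_opNorm x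
  have h2 : l x ≤ ‖LinearMap.toContinuousLinearMap l‖ * ‖x‖ := (Real.le_norm_self _).trans h1
  nlinarith [norm_nonneg x]

/-- An ample class is not zero. -/
lemma ample_ne (V : Variety G) [Nontrivial V.NS] {H : V.NS} (hH : H ∈ interior V.Nef) :
    H ≠ 0 := by
  rintro rfl
  obtain ⟨M, _, h⟩ := unit_le V.nef_cone hH
  obtain ⟨D, hD⟩ := exists_ne (0 : V.NS)
  have h1 : -D ∈ V.Nef := by
    have := h D
    rwa [smul_zero, zero_sub] at this
  have h2 : D ∈ V.Nef := by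
    have := h (-D)
    rwa [smul_zero, zero_sub, neg_neg] at this
  have h3 := V.int_pos _ hH D h2 hD
  have h4 := V.int_pos _ hH (-D) h1 (neg_ne_zero.2 hD)
  have h5 : V.int.curryLeft (-D) (fun _ => (0 : V.NS)) = -V.int.curryLeft D (fun _ => 0) := by
    rw [map_neg]
    rfl
  rw [h5] at h4
  linarith

/-- The degree of a nef class over the base of the covering, divided by the degree of the
covering. -/
noncomputable def co {V W : Variety G} (π : Morphism W V) (c : Cover W) (D : V.NS) : ℝ :=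
  W.deg (W.cls c.H) (π.ns D) / c.N

/-- The comparison of the sizes of nef classes. -/
lemma consts {V W : Variety G} (π : Morphism W V) (hπ : Function.Surjective π.pt) (c : Cover W)
    {A : V.Pic} (hA : V.IsAmple A) {L : V.NS} (hL : L ∈ interior V.Nef) :
    ∃ P : ℝ, 1 ≤ P ∧ ∀ D ∈ V.Nef, gauge V.Nef L D ≤ P * co π c D ∧ ‖D‖ ≤ P * co π c D ∧
      co π c D ≤ P * V.deg (V.cls A) D ∧ V.deg (V.cls A) D ≤ P * co π c D ∧
        V.deg (V.cls A) D ≤ P * gauge V.Nef L D ∧ gauge V.Nef L D ≤ P * V.deg (V.cls A) D := by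
  have hN : (0 : ℝ) < c.N := by exact_mod_cast c.N_pos
  obtain ⟨M1, hM1, h1⟩ := gauge_le V.nef_cone hL
  obtain ⟨M2, hM2, h2⟩ := norm_le V.nef_cone (V.deg (V.cls A)) (deg_pos' V hA)
  obtain ⟨M3, hM3, h3⟩ := nef_le_deg π hπ c.ample
  obtain ⟨R1, hR1, h4⟩ := lin_bound (V.deg (V.cls A))
  obtain ⟨R2, hR2, h5⟩ := lin_bound ((W.deg (W.cls c.H)) ∘ₗ π.ns)
  obtain ⟨M4, hM4, h6⟩ := norm_le_gauge V.nef_cone (V.deg (V.cls A)) (deg_pos' V hA) hL
  obtain ⟨M5, hM5⟩ : ∃ M5, M5 = M3 * c.N := ⟨_, rfl⟩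
  have hM5' : 0 < M5 := by rw [hM5]; positivity
  obtain ⟨R3, hR3⟩ : ∃ R3, R3 = R2 / c.N := ⟨_, rfl⟩
  have hR3' : 0 < R3 := by rw [hR3]; positivity
  have k1 : ∀ D ∈ V.Nef, ‖D‖ ≤ M5 * co π c D := by
    intro D hD
    refine (h3 D hD).trans (le_of_eq ?_)
    rw [hM5, co]
    field_simp
  have k2 : ∀ D : V.NS, co π c D ≤ R3 * ‖D‖ := by
    intro D
    rw [hR3, co, div_mul_eq_mul_div]
    exact div_le_div_of_nonneg_right (h5 D) hN.le
  obtain ⟨P, hP⟩ : ∃ P, P = 1 + M1 * M5 + M5 + R3 * M2 + R1 * M5 + R1 * M4 + M1 * M2 := ⟨_, rfl⟩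
  have p1 : 0 < M1 * M5 := by positivity
  have p2 : 0 < R3 * M2 := by positivity
  have p3 : 0 < R1 * M5 := by positivity
  have p4 : 0 < R1 * M4 := by positivity
  have p5 : 0 < M1 * M2 := by positivity
  refine ⟨P, by linarith, fun D hD => ?_⟩
  have hco : 0 ≤ co π c D := by
    have := (norm_nonneg D).trans (k1 D hD)
    exact nonneg_of_mul_nonneg_right this hM5'
  have hdeg : 0 ≤ V.deg (V.cls A) D := by
    have := (norm_nonneg D).trans (h2 D hD)
    exact nonneg_of_mul_nonneg_right this hM2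
  have hg := gauge_nonneg V.Nef L D
  have key : ∀ {x y z : ℝ}, 0 ≤ z → x ≤ y * z → y ≤ P → x ≤ P * z := fun hz hx hy =>
    hx.trans (mul_le_mul_of_nonneg_right hy hz)
  refine ⟨key hco (y := M1 * M5) ?_ (by linarith), key hco (y := M5) (k1 D hD) (by linarith),
    key hdeg (y := R3 * M2) ?_ (by linarith), key hco (y := R1 * M5) ?_ (by linarith),
    key hg (y := R1 * M4) ?_ (by linarith), key hdeg (y := M1 * M2) ?_ (by linarith)⟩
  · rw [mul_assoc]
    exact (h1 D).trans (mul_le_mul_of_nonneg_left (k1 D hD) hM1.le)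
  · rw [mul_assoc]
    exact (k2 D).trans (mul_le_mul_of_nonneg_left (h2 D hD) hR3'.le)
  · rw [mul_assoc]
    exact (h4 D).trans (mul_le_mul_of_nonneg_left (k1 D hD) hR1.le)
  · rw [mul_assoc]
    exact (h4 D).trans (mul_le_mul_of_nonneg_left (h6 D hD) hR1.le)
  · rw [mul_assoc]
    exact (h1 D).trans (mul_le_mul_of_nonneg_left (h2 D hD) hM1.le)

section

variable {V W : Variety G} {ι : Type} {f : ι → Endo V} {η : V.NS →ₗ[ℝ] (V.Pt → ℝ)}
  {u : V.Pt → ℝ} {L : V.NS} {q B : ℝ}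

/-- The gauge grows along the words. -/
lemma Err.gauge_word (h : Err f η u L q B) (w : List ι) (D : V.NS) :
    gauge V.Nef L D ≤ gauge V.Nef L ((word f w).ns D) := by
  induction w with
  | nil => exact le_rfl
  | cons i w ih =>
    have h1 := h.expand i ((word f w).ns D)
    have h2 := gauge_nonneg V.Nef L ((word f w).ns D)
    have h3 := h.one_lt
    refine ih.trans (le_trans ?_ h1)
    nlinarith

/-- The degrees of the words are bounded below. -/
lemma Err.deg_lower [Nontrivial V.NS] (h : Err f η u L q B) (π : Morphism W V)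
    (hπ : Function.Surjective π.pt) (c : Cover W) {A : V.Pic} (hA : V.IsAmple A) :
    ∃ a : ℝ, 0 < a ∧ ∀ w : List ι, a ≤ V.deg (V.cls A) ((word f w).ns (V.cls A)) := by
  obtain ⟨P, hP, hPb⟩ := consts π hπ c hA h.ample
  have hP0 : 0 < P := by linarith
  have hAn : V.cls A ∈ V.Nef := interior_subset hA
  have hdeg : 0 < V.deg (V.cls A) (V.cls A) := deg_pos' V hA _ hAn (ample_ne V hA)
  refine ⟨V.deg (V.cls A) (V.cls A) / P / P, by positivity, fun w => ?_⟩
  have h1 := (hPb _ hAn).2.2.2.2.1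
  have h2 := h.gauge_word w (V.cls A)
  have h3 := (hPb _ ((word f w).nef _ hAn)).2.2.2.2.2
  rw [div_le_iff₀ hP0, div_le_iff₀ hP0]
  calc V.deg (V.cls A) (V.cls A) ≤ P * gauge V.Nef L (V.cls A) := h1
    _ ≤ P * (P * V.deg (V.cls A) ((word f w).ns (V.cls A))) :=
      mul_le_mul_of_nonneg_left (h2.trans h3) hP0.le
    _ = _ := by ring

/-- The upper bound for all points. -/
lemma Err.upper [Nontrivial V.NS] (h : Err f η u L q B) (π : Morphism W V)
    (hπ : Function.Surjective π.pt) (c : Cover W) {s : V.NS →ₗ[ℝ] V.Pic}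
    (hs : ∀ D, V.cls (s D) = D) (hη : ∀ D, V.IsHeight (s D) (η D)) {A : V.Pic}
    (hA : V.IsAmple A) (hu : V.IsHeight A u) :
    ∃ C : ℝ, 0 < C ∧ ∀ (w : List ι) (x : V.Pt), max 1 (u ((word f w).pt x)) ≤
      C * V.deg (V.cls A) ((word f w).ns (V.cls A)) * max 1 (u x) := by
  have hA' : V.IsAmple (s (V.cls A)) := by
    unfold Variety.IsAmple
    rw [hs]
    exact hA
  have hAn : V.cls A ∈ V.Nef := interior_subset hA
  obtain ⟨a, ha, hab⟩ := h.deg_lower π hπ c hA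
  obtain ⟨c', hc', hcmp⟩ := compare V hA hA' hu (hη _)
  obtain ⟨K, hK, hKb⟩ := lift_bound V s η hη V (Morphism.id V) hA hu
  obtain ⟨M2, hM2, hM2b⟩ := norm_le V.nef_cone (V.deg (V.cls A)) (deg_pos' V hA)
  obtain ⟨P, hP, hPb⟩ := consts π hπ c hA h.ample
  have hB := h.pos
  have hc0 : 0 < c' := by linarith
  refine ⟨c' * (a⁻¹ + K * M2 + B * P), by positivity, fun w x => ?_⟩
  obtain ⟨d, hd⟩ : ∃ d, d = V.deg (V.cls A) ((word f w).ns (V.cls A)) := ⟨_, rfl⟩
  have hwn : (word f w).ns (V.cls A) ∈ V.Nef := (word f w).nef _ hAn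
  have h1 := hab w
  have h2 := hM2b _ hwn
  have h3 := (hPb _ hwn).2.2.2.2.2
  rw [← hd] at h1 h2 h3 ⊢
  have hd0 : 0 < d := by linarith
  obtain ⟨m, hm⟩ : ∃ m, m = max 1 (u x) := ⟨_, rfl⟩
  have hm1 : 1 ≤ m := by rw [hm]; exact le_max_left _ _
  have hsq : √m ≤ m := by
    rw [Real.sqrt_le_left (by linarith)]
    nlinarith
  have h4 := (abs_le.1 (h.err w _ hAn x)).2
  have h5 : η ((word f w).ns (V.cls A)) x ≤ K * ‖(word f w).ns (V.cls A)‖ * max 1 (u x) :=
    (le_abs_self _).trans (hKb _ x)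
  rw [← hm] at h4 h5 ⊢
  refine (hcmp _).1.trans ?_
  have h6 : K * ‖(word f w).ns (V.cls A)‖ * m ≤ K * (M2 * d) * m :=
    mul_le_mul_of_nonneg_right (mul_le_mul_of_nonneg_left h2 hK.le) (by linarith)
  have h7 : B * gauge V.Nef L ((word f w).ns (V.cls A)) * √m ≤ B * (P * d) * m :=
    mul_le_mul (mul_le_mul_of_nonneg_left h3 hB.le) hsq (Real.sqrt_nonneg _) (by positivity)
  have h8 : 1 ≤ a⁻¹ * d * m := by
    have h9 : 1 ≤ a⁻¹ * d := by
      rw [inv_mul_eq_div, one_le_div ha]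
      exact h1
    nlinarith
  have h9 : max 1 (η (V.cls A) ((word f w).pt x)) ≤ (a⁻¹ + K * M2 + B * P) * d * m := by
    have e1 : (a⁻¹ + K * M2 + B * P) * d * m =
      a⁻¹ * d * m + K * (M2 * d) * m + B * (P * d) * m := by ring
    have e2 : 0 ≤ K * (M2 * d) * m := by positivity
    have e3 : 0 ≤ B * (P * d) * m := by positivity
    rw [e1]
    refine max_le (by linarith) (by linarith)
  calc c' * max 1 (η (V.cls A) ((word f w).pt x)) ≤ c' * ((a⁻¹ + K * M2 + B * P) * d * m) :=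
        mul_le_mul_of_nonneg_left h9 hc0.le
    _ = _ := by ring

/-- The lower bound, from a lower bound for the height of the pulled back class. -/
lemma Err.boost (h : Err f η u L q B) (π : Morphism W V)
    (hπ : Function.Surjective π.pt) (c : Cover W) {A : V.Pic}
    (hA : V.IsAmple A) (hu : V.IsHeight A u) {b : ℝ} (hb : 0 < b) :
    ∃ C : ℝ, 0 < C ∧ ∀ w : W.Pt, C ≤ c.h (c.φ w) → ∀ (v : List ι), ∀ D ∈ V.Nef,
      b * (co π c ((word f v).ns D) * c.h (c.φ w)) ≤ η ((word f v).ns D) (π.pt w) →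
        b / 2 * (co π c ((word f v).ns D) * c.h (c.φ w)) ≤ η D ((word f v).pt (π.pt w)) := by
  obtain ⟨P, hP, hPb⟩ := consts π hπ c hA h.ample
  obtain ⟨K2, hK2⟩ := height_bound W c.ample c.height_H (π.height_pic _ _ hu)
  obtain ⟨D2, hD2⟩ : ∃ D2 : ℝ, D2 = |K2| + 1 := ⟨_, rfl⟩
  have hD2' : 1 ≤ D2 := by rw [hD2]; linarith [abs_nonneg K2]
  have hB := h.pos
  obtain ⟨T, hT⟩ : ∃ T : ℝ, T = B * P * D2 := ⟨_, rfl⟩
  have hT0 : 0 < T := by rw [hT]; positivity
  refine ⟨1 + (2 * T / b) ^ 2, by positivity, fun w hw v D hD hlow => ?_⟩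
  obtain ⟨x, hx⟩ : ∃ x : ℝ, x = c.h (c.φ w) := ⟨_, rfl⟩
  have hcm : max 1 (u (π.pt w)) ≤ D2 * max 1 (c.h (c.φ w)) := by
    have h1 : (1 : ℝ) ≤ max 1 (c.h (c.φ w)) := le_max_left _ _
    refine max_le (by nlinarith) ?_
    have h3 : u (π.pt w) ≤ K2 * max 1 (c.h (c.φ w)) := (le_abs_self _).trans (hK2 w)
    have h4 : K2 ≤ D2 := by rw [hD2]; linarith [le_abs_self K2]
    nlinarith
  rw [← hx] at hw hlow hcm ⊢
  have hsq0 : 0 ≤ (2 * T / b) ^ 2 := sq_nonneg _
  have hx1 : 1 ≤ x := by linarith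
  have hx0 : 0 < x := by linarith
  rw [max_eq_right hx1] at hcm
  have hvn : (word f v).ns D ∈ V.Nef := (word f v).nef _ hD
  obtain ⟨k, hk⟩ : ∃ k, k = co π c ((word f v).ns D) := ⟨_, rfl⟩
  have h1 := (hPb _ hvn).1
  have h2 := (hPb _ hvn).2.1
  rw [← hk] at h1 h2 hlow ⊢
  have hk0 : 0 ≤ k := by
    have := (norm_nonneg _).trans h2
    exact nonneg_of_mul_nonneg_right this (by linarith)
  have h3 := (abs_le.1 (h.err v D hD (π.pt w))).1
  have h4 : √(max 1 (u (π.pt w))) ≤ D2 * √x := by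
    have h7 : √(max 1 (u (π.pt w))) ≤ √(D2 * x) := Real.sqrt_le_sqrt hcm
    rw [Real.sqrt_mul (by linarith)] at h7
    have h8 : √D2 ≤ D2 := by
      rw [Real.sqrt_le_left (by linarith)]
      nlinarith
    exact h7.trans (mul_le_mul_of_nonneg_right h8 (Real.sqrt_nonneg _))
  have h5 : B * gauge V.Nef L ((word f v).ns D) * √(max 1 (u (π.pt w))) ≤ k * (T * √x) := by
    calc B * gauge V.Nef L ((word f v).ns D) * √(max 1 (u (π.pt w)))
        ≤ B * (P * k) * (D2 * √x) :=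
          mul_le_mul (mul_le_mul_of_nonneg_left h1 hB.le) h4 (Real.sqrt_nonneg _)
            (by positivity)
      _ = k * (T * √x) := by rw [hT]; ring
  have h6 : T * √x ≤ b / 2 * x := by
    have h9 : 2 * T / b ≤ √x := Real.le_sqrt_of_sq_le (by linarith)
    have h10 : √x * √x = x := Real.mul_self_sqrt hx0.le
    rw [div_le_iff₀ hb] at h9
    nlinarith [Real.sqrt_nonneg x]
  have h7 : k * (T * √x) ≤ k * (b / 2 * x) := mul_le_mul_of_nonneg_left h6 hk0
  have e1 : b / 2 * (k * x) = b * (k * x) - k * (b / 2 * x) := by ring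
  rw [e1]
  linarith

end

end Pool.Agent.K6.H12.KS
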