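import Mathlib
import Pool.Agent.K6.H12.KS.Main

/-!
All compositions at once: the arithmetic degrees.
-/

set_option autoImplicit false

open Filter Topology

namespace Pool.Agent.K6.H12.KS

open Pool.Agent.Q8.KS

variable {G : Type} [Group G] {V W : Variety G} {ι : Type} {f : ι → Endo V}
  {η : V.NS →ₗ[ℝ] (V.Pt → ℝ)} {u : V.Pt → ℝ} {L : V.NS} {q B : ℝ}

/-- the degree of the composition -/
noncomputable def dg (f : ι → Endo V) (A : V.Pic) (g : List ι) : ℝ :=
  V.deg (V.cls A) ((word f g).ns (V.cls A))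

/-- Two-sided bounds at the points where all nef classes have a large height. -/
theorem Err.two_sided [Nontrivial V.NS] (h : Err f η u L q B) (π : Morphism W V)
    (hπ : Function.Surjective π.pt) (c : Cover W) {s : V.NS →ₗ[ℝ] V.Pic}
    (hs : ∀ D, V.cls (s D) = D) (hη : ∀ D, V.IsHeight (s D) (η D)) {A : V.Pic}
    (hA : V.IsAmple A) (hu : V.IsHeight A u) {b : ℝ} (hb : 0 < b) :
    ∃ C : ℝ, 0 < C ∧ ∀ w : W.Pt, C ≤ c.h (c.φ w) →
      (∀ D ∈ V.Nef, b * (co π c D * c.h (c.φ w)) ≤ η D (π.pt w)) → ∀ v : List ι,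
        dg f A v * c.h (c.φ w) ≤ C * u ((word f v).pt (π.pt w)) ∧
          u ((word f v).pt (π.pt w)) ≤ C * (dg f A v * c.h (c.φ w)) := by
  have hA' : V.IsAmple (s (V.cls A)) := by
    unfold Variety.IsAmple
    rw [hs]
    exact hA
  have hAn : V.cls A ∈ V.Nef := interior_subset hA
  obtain ⟨C1, hC1, h1⟩ := h.boost π hπ c hA hu hb
  obtain ⟨C2, hC2, h2⟩ := h.upper π hπ c hs hη hA hu
  obtain ⟨a, ha, hab⟩ := h.deg_lower π hπ c hA
  obtain ⟨P, hP, hPb⟩ := consts π hπ c hA h.ample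
  have hP0 : 0 < P := by linarith
  obtain ⟨c', hc', hcmp⟩ := compare V hA hA' hu (hη _)
  have hc0 : 0 < c' := by linarith
  obtain ⟨K2, hK2⟩ := height_bound W c.ample c.height_H (π.height_pic _ _ hu)
  obtain ⟨D2, hD2⟩ : ∃ D2 : ℝ, D2 = |K2| + 1 := ⟨_, rfl⟩
  have hD2' : 1 ≤ D2 := by rw [hD2]; linarith [abs_nonneg K2]
  -- the constant of the lower bound
  obtain ⟨T, hT⟩ : ∃ T : ℝ, T = 2 * P * c' / b := ⟨_, rfl⟩
  have hT0 : 0 < T := by rw [hT]; positivity
  have hTa : 0 < T / a := by positivity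
  have hCD : 0 < C2 * D2 := by positivity
  refine ⟨1 + C1 + T + T / a + C2 * D2, by positivity, fun w hw hD v => ?_⟩
  obtain ⟨x, hx⟩ : ∃ x : ℝ, x = c.h (c.φ w) := ⟨_, rfl⟩
  have hvn : (word f v).ns (V.cls A) ∈ V.Nef := (word f v).nef _ hAn
  have hcm : 1 ≤ c.h (c.φ w) → max 1 (u (π.pt w)) ≤ D2 * c.h (c.φ w) := by
    intro hw1
    have e1 : max 1 (c.h (c.φ w)) = c.h (c.φ w) := max_eq_right hw1
    refine max_le (by nlinarith) ?_
    have h3 : u (π.pt w) ≤ K2 * max 1 (c.h (c.φ w)) := (le_abs_self _).trans (hK2 w)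
    rw [e1] at h3
    have h4 : K2 ≤ D2 := by rw [hD2]; linarith [le_abs_self K2]
    nlinarith
  have h3 := h1 w (by linarith) v _ hAn (hD _ hvn)
  have h4 := (hPb _ hvn).2.2.2.1
  have h5 := h2 v (π.pt w)
  have h6 := hab v
  change a ≤ dg f A v at h6
  change max 1 (u ((word f v).pt (π.pt w))) ≤ C2 * dg f A v * max 1 (u (π.pt w)) at h5
  change dg f A v ≤ P * co π c ((word f v).ns (V.cls A)) at h4
  obtain ⟨d, hd⟩ : ∃ d, d = dg f A v := ⟨_, rfl⟩
  obtain ⟨k, hk⟩ : ∃ k, k = co π c ((word f v).ns (V.cls A)) := ⟨_, rfl⟩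
  obtain ⟨y, hy⟩ : ∃ y, y = u ((word f v).pt (π.pt w)) := ⟨_, rfl⟩
  rw [← hx] at hcm hw h3 ⊢
  rw [← hk] at h3 h4
  rw [← hd] at h4 h5 h6 ⊢
  rw [← hy] at h5 ⊢
  have hx1 : 1 ≤ x := by linarith
  have hx0 : 0 < x := by linarith
  have hd0 : 0 < d := by linarith
  have h7 : d * x ≤ T * max 1 y := by
    have e1 : b / 2 * (k * x) ≤ c' * max 1 y := by
      refine h3.trans ((le_max_right 1 _).trans ?_)
      rw [hy]
      exact (hcmp _).2
    have e2 : d * x ≤ P * k * x := mul_le_mul_of_nonneg_right h4 hx0.le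
    have e3 : P * k * x = (2 * P / b) * (b / 2 * (k * x)) := by
      field_simp
    have e4 : (2 * P / b) * (b / 2 * (k * x)) ≤ (2 * P / b) * (c' * max 1 y) :=
      mul_le_mul_of_nonneg_left e1 (by positivity)
    have e5 : (2 * P / b) * (c' * max 1 y) = T * max 1 y := by
      rw [hT]
      ring
    linarith
  have hy1 : max 1 y = y := by
    rcases max_cases 1 y with ⟨e1, _⟩ | ⟨e1, _⟩
    · exfalso
      rw [e1, mul_one] at h7
      have e2 : a * x ≤ d * x := mul_le_mul_of_nonneg_right h6 hx0.le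
      have e3 : T / a < x := by linarith
      rw [div_lt_iff₀ ha] at e3
      linarith
    · exact e1
  rw [hy1] at h5 h7
  have hy0 : 0 < y := by
    have e1 : 0 < d * x := by positivity
    exact pos_of_mul_pos_right (lt_of_lt_of_le e1 h7) hT0.le
  refine ⟨h7.trans (mul_le_mul_of_nonneg_right (by linarith) hy0.le), ?_⟩
  have h8 := hcm hx1
  calc y ≤ C2 * d * max 1 (u (π.pt w)) := h5
    _ ≤ C2 * d * (D2 * x) := mul_le_mul_of_nonneg_left h8 (by positivity)
    _ = C2 * D2 * (d * x) := by ring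
    _ ≤ _ := mul_le_mul_of_nonneg_right (by linarith) (by positivity)

/-- The dynamical degree of a composition is at least one. -/
lemma Err.one_le [Nontrivial V.NS] (h : Err f η u L q B) (π : Morphism W V)
    (hπ : Function.Surjective π.pt) (c : Cover W) {A : V.Pic} (hA : V.IsAmple A) {v : List ι}
    {δ : ℝ} (hδ : IsDynamicalDegree (word f v).toMorphism A δ) : 1 ≤ δ := by
  obtain ⟨a, ha, hab⟩ := h.deg_lower π hπ c hA
  refine le_of_tendsto_of_tendsto' (const_rpow_tendsto ha) hδ fun k => ?_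
  refine Real.rpow_le_rpow ha.le ?_ (by positivity)
  have := hab (rep v k)
  rwa [rep_ns] at this

/-- The arithmetic degree from two-sided bounds. -/
lemma arith_of_two (π : Morphism W V) {A : V.Pic} {w : W.Pt} {v : List ι} {δ C x : ℝ}
    (hC : 0 < C) (hx : 0 < x) (hdeg : ∀ v, 0 ≤ dg f A v)
    (hlow : ∀ v, dg f A v * x ≤ C * u ((word f v).pt (π.pt w)))
    (hup : ∀ v, max 1 (u ((word f v).pt (π.pt w))) ≤ C * (dg f A v * x))
    (hδ : IsDynamicalDegree (word f v).toMorphism A δ) :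
    IsArithmeticDegree (word f v).toMorphism u (π.pt w) δ := by
  have e1 : ∀ k, V.deg (V.cls A) (((word f v).ns ^ k) (V.cls A)) = dg f A (rep v k) := by
    intro k
    rw [dg, rep_ns]
  refine rate_of_bounds (x := x / C) (y := C * x) (by positivity) (by positivity)
    (fun k => by rw [e1]; exact hdeg _) hδ (fun k => ?_) (fun k => ?_)
  · have h1 := hlow (rep v k)
    rw [rep_pt] at h1
    rw [e1]
    have h2 : dg f A (rep v k) * x ≤ C * max 1 (u ((word f v).pt^[k] (π.pt w))) :=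
      h1.trans (mul_le_mul_of_nonneg_left (le_max_right _ _) hC.le)
    rw [div_mul_eq_mul_div, div_le_iff₀ hC]
    linarith
  · have h1 := hup (rep v k)
    rw [rep_pt] at h1
    rw [e1]
    refine h1.trans (le_of_eq ?_)
    ring

/-- **The fibres.** -/
theorem Err.fibre [Nontrivial V.NS] (h : Err f η u L q B) (π : Morphism W V)
    (hπ : Function.Surjective π.pt) (c : Cover W) {s : V.NS →ₗ[ℝ] V.Pic}
    (hs : ∀ D, V.cls (s D) = D) (hη : ∀ D, V.IsHeight (s D) (η D)) {A : V.Pic}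
    (hA : V.IsAmple A) (hu : V.IsHeight A u) {β C₁ : ℝ} (hβ : 0 < β)
    (hup : UpperBound η π c ∅ β C₁) :
    ∃ C : ℝ, 0 < C ∧ ∀ t : c.P, C ≤ c.h t → ∀ (v : List ι) (δ : ℝ),
      IsDynamicalDegree (word f v).toMorphism A δ →
        AtLeast c t ((2 * β)⁻¹ * c.N) (fun w =>
          IsArithmeticDegree (word f v).toMorphism u (π.pt w) δ ∧
            ∀ k : ℕ, δ ^ k * c.h t ≤ C * u ((word f v).pt^[k] (π.pt w))) := by
  classical
  have hAn : V.cls A ∈ V.Nef := interior_subset hA
  obtain ⟨C0, hC0, h0⟩ := many_nef s η hs hη π hπ c (δ := 1 / 4) hβ (by norm_num) hup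
  obtain ⟨C1, hC1, h1⟩ := h.boost π hπ c hA hu (b := 1 / 4) (by norm_num)
  obtain ⟨C2, hC2, h2⟩ := h.upper π hπ c hs hη hA hu
  obtain ⟨P, hP, hPb⟩ := consts π hπ c hA h.ample
  have hP0 : 0 < P := by linarith
  obtain ⟨K, hK, hKb⟩ := lift_bound V s η hη V (Morphism.id V) hA hu
  have hN : (0 : ℝ) < c.N := by exact_mod_cast c.N_pos
  obtain ⟨T, hT⟩ : ∃ T : ℝ, T = 8 * K * P := ⟨_, rfl⟩
  have hT0 : 0 < T := by rw [hT]; positivity
  refine ⟨C0 + C1 + T + 1, by positivity, fun t ht v δ hδ => ?_⟩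
  have hδ1 : 1 ≤ δ := h.one_le π hπ c hA hδ
  have hδ0 : 0 < δ := by linarith
  -- the eigenclass
  obtain ⟨D, hD, hD0, hDv⟩ := perron V.nef_cone (V.deg (V.cls A)) (deg_pos' V hA) hA
    (word f v).ns (word f v).nef hδ0 hδ
  have hk : ∀ k : ℕ, ((word f v).ns ^ k) D = δ ^ k • D := by
    intro k
    induction k with
    | zero => rw [pow_zero, pow_zero, one_smul, Module.End.one_apply]
    | succ k ih =>
      rw [pow_succ, Module.End.mul_apply, hDv, map_smul, ih, smul_smul, pow_succ]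
      congr 1
      ring
  have hco : 0 < co π c D := by
    have e1 := (hPb D hD).2.1
    have e2 : 0 < ‖D‖ := norm_pos_iff.2 hD0
    exact pos_of_mul_pos_right (lt_of_lt_of_le e2 e1) hP0.le
  have hdegD : 0 < W.deg (W.cls c.H) (π.ns D) := (div_pos_iff_of_pos_right hN).1 hco
  have h3 := h0 t (by linarith) (fun _ _ => Set.notMem_empty _) D hD hdegD
  refine ⟨{y ∈ c.fib t | 1 / 4 * (W.deg (W.cls c.H) (π.ns D) / c.N * c.h t) ≤ η D (π.pt y)},
    Finset.filter_subset _ _, fun w hw => ?_, ?_⟩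
  · obtain ⟨hw1, hw2⟩ := Finset.mem_filter.1 hw
    have hφ : c.φ w = t := (c.mem_fib _ _).1 hw1
    obtain ⟨x, hx⟩ : ∃ x : ℝ, x = c.h t := ⟨_, rfl⟩
    have hx1 : C0 + C1 + T + 1 ≤ x := by rw [hx]; exact ht
    have hx0 : 0 < x := by linarith
    have hall : ∀ k : ℕ, δ ^ k * x ≤ T * u ((word f v).pt^[k] (π.pt w)) := by
      intro k
      have hδk : 1 ≤ δ ^ k := one_le_pow₀ hδ1
      have e1 : (word f (rep v k)).ns D = δ ^ k • D := by rw [rep_ns, hk]
      have e2 : co π c (δ ^ k • D) = δ ^ k * co π c D := by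
        rw [co, map_smul, map_smul, smul_eq_mul, co]
        ring
      have h4 := h1 w (by rw [hφ]; linarith) (rep v k) D hD (by
        rw [e1, e2, hφ, map_smul, Pi.smul_apply, smul_eq_mul]
        have e3 : 1 / 4 * (δ ^ k * co π c D * c.h t) = δ ^ k * (1 / 4 * (co π c D * c.h t)) := by
          ring
        rw [e3]
        exact mul_le_mul_of_nonneg_left hw2 (by positivity))
      rw [e1, e2, hφ, rep_pt, ← hx] at h4
      have h5 : η D ((word f v).pt^[k] (π.pt w)) ≤
          K * (P * co π c D) * max 1 (u ((word f v).pt^[k] (π.pt w))) := by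
        refine (le_abs_self _).trans ((hKb D _).trans ?_)
        exact mul_le_mul_of_nonneg_right (mul_le_mul_of_nonneg_left (hPb D hD).2.1 hK.le)
          (le_trans zero_le_one (le_max_left _ _))
      have h6 : co π c D * (δ ^ k * x) ≤
          co π c D * (T * max 1 (u ((word f v).pt^[k] (π.pt w)))) := by
        have e3 : co π c D * (δ ^ k * x) = 8 * (1 / 4 / 2 * (δ ^ k * co π c D * x)) := by ring
        have e4 : co π c D * (T * max 1 (u ((word f v).pt^[k] (π.pt w)))) =
            8 * (K * (P * co π c D) * max 1 (u ((word f v).pt^[k] (π.pt w)))) := by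
          rw [hT]
          ring
        rw [e3, e4]
        linarith
      have h7 : δ ^ k * x ≤ T * max 1 (u ((word f v).pt^[k] (π.pt w))) :=
        le_of_mul_le_mul_left h6 hco
      rcases max_cases 1 (u ((word f v).pt^[k] (π.pt w))) with ⟨e3, _⟩ | ⟨e3, _⟩
      · exfalso
        rw [e3, mul_one] at h7
        nlinarith
      · rwa [e3] at h7
    refine ⟨?_, fun k => ?_⟩
    · unfold IsArithmeticDegree
      have e1 : ∀ k, V.deg (V.cls A) (((word f v).ns ^ k) (V.cls A)) = dg f A (rep v k) := by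
        intro k
        rw [dg, rep_ns]
      obtain ⟨a, ha, hab⟩ := h.deg_lower π hπ c hA
      refine rate_between (x := x / T) (y := C2 * max 1 (u (π.pt w))) hδ0 (by positivity)
        (mul_pos hC2 (lt_of_lt_of_le one_pos (le_max_left _ _)))
        (fun k => ?_) hδ (fun k => ?_) (fun k => ?_)
      · rw [e1]
        exact ha.le.trans (hab _)
      · have := hall k
        rw [div_mul_eq_mul_div, div_le_iff₀ hT0]
        have e2 : T * u ((word f v).pt^[k] (π.pt w)) ≤
            T * max 1 (u ((word f v).pt^[k] (π.pt w))) :=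
          mul_le_mul_of_nonneg_left (le_max_right _ _) hT0.le
        linarith
      · have := h2 (rep v k) (π.pt w)
        rw [rep_pt, rep_ns] at this
        linarith
    · rw [← hx]
      have h8 := hall k
      have h9 : 0 < u ((word f v).pt^[k] (π.pt w)) := by
        have e3 : 0 < δ ^ k * x := by positivity
        exact pos_of_mul_pos_right (lt_of_lt_of_le e3 h8) hT0.le
      exact h8.trans (mul_le_mul_of_nonneg_right (by linarith) h9.le)
  · have e1 : (1 - 2 * (1 / 4 : ℝ)) * c.N / β = (2 * β)⁻¹ * c.N := by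
      field_simp
      norm_num
    rw [← e1]
    exact h3

end Pool.Agent.K6.H12.KS
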